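import Pool.Agent.Helper845_Sec.Lift

/-!
# Complete components of the space of sections

Let `X` be a closed subset of `ℙ¹ × ℙ(ι)` whose general fibre over `ℙ¹` is irreducible, rationally
connected and of dimension at most two, and which has a section. There are complete components of
the space of sections (for example all components of minimal degree), and for every complete
component `M` the Stein factorization of the Abel-Jacobi map is the maximal rationally connected
fibration of `M`, unless `M` is an irrational curve which is contracted by the Abel-Jacobi map.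
-/

namespace Pool.Agent.Results.MP_c71a2d_ag.CompleteComponents

open Pool.Agent.Helper845_Sec

theorem result {ι : Type} [Finite ι] (X : Set ((Fin 2 → ℂ) × (ι → ℂ))) (hX : BiClosed X)
    (hgen : ∃ E : Set ℂ, E.Finite ∧ ∀ z ∉ E,
      Irred (fib X ![z, 1]) ∧ DimLE 2 (fib X ![z, 1]) ∧ RatConn (fib X ![z, 1]))
    (hsec : ∃ d : ℕ, (Sec X d).Nonempty) :
    (∃ (d : ℕ) (M : Set (ι × Fin (d + 1) → ℂ)), Component M (Sec X d) ∧ ProjClosed M) ∧
    ∀ (d : ℕ) (M : Set (ι × Fin (d + 1) → ℂ)), Component M (Sec X d) → ProjClosed M →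
      DimLE 2 M ∧
      ∀ (V : Type) [NormedAddCommGroup V] [NormedSpace ℂ V] [FiniteDimensional ℂ V]
        (Λ : AddSubgroup V) [DiscreteTopology Λ] (α : (ι × Fin (d + 1) → ℂ) → V ⧸ Λ),
        AJType Λ M α → SteinIsMRC Λ M α ∨
          (DimLE 1 M ∧ (∃ v ∈ M, ∃ w ∈ M, ∀ a : ℂ, w ≠ a • v) ∧
            (∀ R : Set (ι × Fin (d + 1) → ℂ), RatCurve R → R ⊆ M →
              ∀ v ∈ R, ∀ w ∈ R, ∃ a : ℂ, w = a • v) ∧
            ∀ v ∈ M, ∀ w ∈ M, α v = α w) :=
  ⟨exists_complete hX hsec, fun d M hMc hM => main X hX hgen d M hMc hM⟩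

end Pool.Agent.Results.MP_c71a2d_ag.CompleteComponents
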